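import Pool.Agent.V11235.SH.Dvr
import Pool.Agent.V11235.SH.Fac
import Pool.Agent.TH377.LocG.Res

/-!
# Degrees of the extensions of a `p`-adic field over which a superelliptic curve has sections

Let `k` be a field of characteristic zero with a discrete valuation `v`, `A` its valuation ring, for
instance a finite extension of `ℚ_p`.  (The residue field `κ` is arbitrary, and `A` need not be
complete.)  Let `f_i ∈ A[x]` be finitely many polynomials with leading coefficients in `Aˣ` such that
the reduction of `∏ f_i` is separable, `e_i ≥ 0`, and `a ∈ kˣ`.  Let `D ≥ 1` be a number such that the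
degrees of all irreducible factors over `κ` of the reduction of `∏ f_i` are divisible by `D` if `D` is
odd and by `2 D` if `D` is even.

We prove for **all** finite extensions `k'` of `k` and all `n` divisible by `D`: if the smooth
projective curve `X : a yⁿ = ∏ f_i(x)^(e_i)` has a point over `k'`, or if the absolute Galois group of
its function field over `k'` has a section over `G_k'`, or if the `e_i` are prime to `D` and the
fundamental group of `X` over `k'`, of an open subcurve, or of a smooth curve over `k'` that dominates
`X` has a section, then `D` divides `v(a) [k' : k]`.  So the `p`-adic section conjecture holds for all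
these curves over all `k'` with `D ∤ v(a) [k' : k]`, for example over all extensions of degree prime to
`D`, if `D ∤ v(a)`.  The prime number `p` may divide `n` and `D`: for instance over all extensions
`k'` of `ℚ_p` whose degree is prime to `p` the fundamental groups of the curves
`p y^(p r) = x^p - x - 1 + p g(x)`, `p` odd, `deg g < p`, `r ≥ 1`, and of all curves that dominate them,
have no sections.  Already a small quotient of the absolute Galois group of the function field has no
section over `G_k'`: the one that belongs to the field generated by `k̄` and the roots of order `D` of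
the functions `(x - ρ)/(x - ρ')`, where `ρ`, `ρ'` are roots of `∏ f_i`.

If the reduction of `f` is irreducible of odd degree `D`, and if `v(a)` is prime to `D`, the result is
best possible: then all these `[k' : k]` are divisible by `D`, and `X : a yⁿ = f(x)` has a point over an
extension of degree `D`, so that `D` is the greatest common divisor of the degrees of the `k'` with
points, and that of the degrees of the `k'` with sections.

The starting hand-in `MP_8312c9_nt.FactorDegrees` is the case `k' = k`, and the starting hand-in
`MP_c385f6_ag.ProEllSections` treats the sections of the geometrically pro-`ℓ` fundamental groups of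
`a y^ℓ = f(x)` for prime numbers `ℓ ≠ p` with `ℓ ∤ v(a)`.

The fundamental group is described through valuations.  Let `U` be a smooth geometrically connected
curve over `k` with function field `F`, let `Ω` be an algebraic closure of `F`, and let `F_U` be the
maximal extension of `F` inside `Ω` which is unramified over the closed points of `U`, that is, over
their local rings, which are valuation rings of `F`.  Then `π₁(U) = Gal(F_U/F)`, and the map
`π₁(U) → G_k` is the restriction of automorphisms to the algebraic closure of `k` in `Ω`.  For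
`U = ∅` one gets `F_U = Ω` and the sections of `Gal(Ω/F) → G_k`.

Proof.  Let `k'` be a finite extension of `k` with `D ∤ v(a) [k' : k]`, and let `l` be a prime number with
`v_l(v(a) [k' : k]) < v_l(D)`.  The sum of the products of the ramification indices `e` and residue
degrees `f` of the valuations `w` of `k'` above `v` is `[k' : k]` (this holds also if `A` is not complete,
because `k'/k` is separable), so there is a `w` with `v_l(e f) ≤ v_l([k' : k])`.  Put
`ℓ = l^(1 + v_l(e v(a)))`, a divisor of `D`, because `v_l(e v(a)) ≤ v_l(v(a) [k' : k]) < v_l(D)`.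
Then `w(a) = e v(a)` is not divisible by `ℓ`, and as `v_l(f) + v_l(e v(a)) < v_l(D)` the degrees of the
irreducible factors of `∏ f_i` over the residue field of `w` are divisible by `ℓ` or `2 ℓ`.  So the
local theorem of `MP_8312c9_nt.FactorDegrees` (library `Pool.Agent.TH377.LocG`) applies.
-/

set_option autoImplicit false

open Polynomial

namespace Pool.Agent.Results.MP_c385f6_ag.SectionDegrees

section definitions

variable (k F Ω : Type) [Field k] [Field F] [Field Ω] [Algebra k F]
  [Algebra F Ω] [Algebra k Ω]

/-- The inertia group of the valuation ring `W` of `Ω`, as a subgroup of `Gal(Ω/F)`: the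
automorphisms of `Ω` over `F` that map `W` onto itself and act as the identity on its residue
field. -/
noncomputable def inertia (W : ValuationSubring Ω) : Subgroup (Ω ≃ₐ[F] Ω) :=
  (W.inertiaSubgroup F).map (W.decompositionSubgroup F).subtype

/-- `F_U`, for a set `U` of valuation rings of `F`: the elements of `Ω` fixed by the inertia groups
of all valuation rings `W` of `Ω` with `W ∩ F ∈ U`.  If `Ω` is an algebraic closure of a field `F`
of characteristic zero, this is the maximal extension of `F` in `Ω` unramified over `U`. -/
noncomputable def unramified (U : Set (ValuationSubring F)) : IntermediateField F Ω :=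
  ⨅ W : {W : ValuationSubring Ω // W.comap (algebraMap F Ω) ∈ U},
    IntermediateField.fixedField (inertia F Ω W.1)

/-- The map `τ : M → M` acts as `σ : K → K` on the elements that the fields `K` and `M` have in
common when they are regarded as subfields of `Ω` through `i` and `j`. -/
def ActsAs {K M Ω : Type} [Field K] [Field M] [Field Ω] (i : K →+* Ω) (j : M →+* Ω) (σ : K → K)
    (τ : M → M) : Prop :=
  ∀ c z, j z = i c → j (τ z) = i (σ c)

/-- Let `k ⊆ K ⊆ Ω` and `F ⊆ M ⊆ Ω` be fields.  A splitting of `Gal(M/F) → Gal(K/k)`: a continuous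
homomorphism `s` from `Gal(K/k)` to `Gal(M/F)` such that `s(σ)` acts as `σ` on the elements of
`K ∩ M`. -/
structure Splitting (K M : Type) [Field K] [Field M] [Algebra k K] [Algebra F M] [Algebra K Ω]
    [Algebra M Ω] where
  /-- the homomorphism `Gal(K/k) → Gal(M/F)` -/
  toHom : (K ≃ₐ[k] K) →* (M ≃ₐ[F] M)
  cont : Continuous toHom
  compat : ∀ σ : K ≃ₐ[k] K, ActsAs (algebraMap K Ω) (algebraMap M Ω) σ (toHom σ)

/-- The sections of `π₁(U) = Gal(F_U/F) → G_k`: the continuous homomorphisms `s` from
`G_k = Gal(k̄/k)` to `Gal(F_U/F)`, where `k̄` is the algebraic closure of `k` in `Ω`, such that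
`s(σ)` acts as `σ` on the elements of `k̄`. -/
def GaloisSection (U : Set (ValuationSubring F)) : Type :=
  Splitting k F Ω (algebraicClosure k Ω) (unramified F Ω U)

end definitions

/-- The smooth projective curve with the affine equation `a yⁿ = f(x)` has no point over `k`: neither
over the affine line, nor at infinity, where the points over `k` correspond to the solutions of
`a r^g = c` with `g = gcd(n, deg f)` and `c` the leading coefficient of `f`.  (If `f` has no root in
`k`, then all points over the affine line are given by solutions of the affine equation.) -/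
def NoPoint {k : Type} [Field k] (n : ℕ) (a : k) (f : k[X]) : Prop :=
  (¬ ∃ x y : k, a * y ^ n = f.eval x) ∧ ¬ ∃ r : k, a * r ^ Nat.gcd n f.natDegree = f.leadingCoeff

/-- Let `F` be any field over `k` that contains a point `(x, y)` of the curve `a yⁿ = f(x)`, for
instance the function field of the curve, and let `Ω` be an algebraic closure of `F`.  Then for
every set `U` of valuation rings of `F` over `k` there is no section of `π₁(U) → G_k`.  If `F` is the
function field of the curve, such `U` are given by the smooth projective curve and by all its open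
subcurves. -/
def NoSection {k : Type} [Field k] (n : ℕ) (a : k) (f : k[X]) : Prop :=
  ∀ (F Ω : Type) [Field F] [Field Ω] [Algebra k F] [Algebra F Ω] [Algebra k Ω]
    [IsScalarTower k F Ω] [IsAlgClosure F Ω] (x y : F) (U : Set (ValuationSubring F)),
    algebraMap k F a * y ^ n = aeval x f → (∀ O ∈ U, ∀ c : k, algebraMap k F c ∈ O) →
      IsEmpty (GaloisSection k F Ω U)

/-- The extension `M` of `F` in `Ω` contains the algebraic closure of `k` and, for all roots `θ`, `θ'`
of the polynomial `P`, a root of order `d` of `(x - θ)/(x - θ')`. -/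
def ContainsRoots {k : Type} {F Ω : Type} [Field k] [Field F] [Field Ω]
    [Algebra k F] [Algebra F Ω] [Algebra k Ω] (d : ℕ) (P : k[X]) (x : F)
    (M : IntermediateField F Ω) : Prop :=
  (∀ c : algebraicClosure k Ω, (c : Ω) ∈ M) ∧ ∀ θ θ' : Ω, aeval θ P = 0 → aeval θ' P = 0 →
    ∃ z ∈ M, z ^ d = (algebraMap F Ω x - θ) / (algebraMap F Ω x - θ')

/-- Let `F` be any field over `k` that contains a point `(x, y)` of the curve `a yⁿ = f(x)` and let
`Ω` be an algebraic closure of `F`.  If the extension `M` of `F` in `Ω` contains the algebraic closure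
of `k` and the roots of order `d` of the functions `(x - θ)/(x - θ')`, then there is no section of
`Gal(M/F) → G_k`. -/
def NoKummerSection {k : Type} [Field k] (d n : ℕ) (a : k) (P f : k[X]) : Prop :=
  ∀ (F Ω : Type) [Field F] [Field Ω] [Algebra k F] [Algebra F Ω] [Algebra k Ω]
    [IsScalarTower k F Ω] [IsAlgClosure F Ω] (x y : F) (M : IntermediateField F Ω),
    algebraMap k F a * y ^ n = aeval x f → ContainsRoots d P x M →
      IsEmpty (Splitting k F Ω (algebraicClosure k Ω) M)

/-- All the assertions for the curve `a yⁿ = ∏ f_i(x)^(e_i)` over `k` and the number `D`: the curve has no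
point; there is no section of `Gal(M/F) → G_k` for all extensions `M` of its function field `F` that
contain the algebraic closure of `k` and the roots of order `D` of the functions `(x - θ)/(x - θ')`,
where `θ`, `θ'` are roots of `∏ f_i`; and if the `e_i` are prime to `D` the fundamental groups of the
curve and of its open subcurves have no section. -/
def NothingAt {k : Type} [Field k] {I : Type} [Fintype I] (D n : ℕ) (a : k) (f : I → k[X])
    (e : I → ℕ) : Prop :=
  NoPoint n a (∏ i, f i ^ e i) ∧
    NoKummerSection D n a (∏ i, f i) (∏ i, f i ^ e i) ∧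
    ((∀ i, Nat.Coprime D (e i)) → NoSection n a (∏ i, f i ^ e i))

/-- The leading coefficients of the `f_i ∈ A[x]` are units, the reduction of `∏ f_i` is separable, and
the degrees of all its irreducible factors over the residue field are divisible by `gcd(2, D) D`. -/
structure GoodReduction {A : Type} [CommRing A] [IsLocalRing A] {I : Type} [Fintype I] (D : ℕ)
    (f : I → A[X]) : Prop where
  unit : ∀ i, IsUnit (f i).leadingCoeff
  separable : ((∏ i, f i).map (IsLocalRing.residue A)).Separable
  factors : ∀ q : (IsLocalRing.ResidueField A)[X], Irreducible q →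
    q ∣ (∏ i, f i).map (IsLocalRing.residue A) → Nat.gcd 2 D * D ∣ q.natDegree

/-- The element `a` of the fraction field `k` of `A` has valuation `m`: it is a unit of `A` times the
`m`-th power of a uniformiser. -/
def HasValuation (A : Type) [CommRing A] {k : Type} [Field k] [Algebra A k] (a : k) (m : ℤ) : Prop :=
  ∃ ϖ t : A, Irreducible ϖ ∧ IsUnit t ∧ a = algebraMap A k t * algebraMap A k ϖ ^ m

/-- For all finite extensions `k'` of `k` such that `D` does not divide `m [k' : k]`, and all `n`
divisible by `D`, the curve `a yⁿ = ∏ f_i(x)^(e_i)` over `k'` has neither points nor sections, as in the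
definition `NothingAt`. -/
def OnlyDegreesDivisible {k : Type} [Field k] {I : Type} [Fintype I] (D : ℕ) (m : ℤ) (a : k)
    (f : I → k[X]) (e : I → ℕ) : Prop :=
  ∀ (k' : Type) [Field k'] [Algebra k k'] [FiniteDimensional k k'],
    ¬ (D : ℤ) ∣ m * Module.finrank k k' → ∀ n : ℕ, D ∣ n →
      NothingAt D n (algebraMap k k' a) (fun i => (f i).map (algebraMap k k')) e

/-- There is an extension `k'` of `k` of degree `D` such that for all `n ≥ 1` the curve `a yⁿ = f(x)` has
a point over `k'`. -/
def PointInDegree {k : Type} [Field k] (D : ℕ) (a : k) (f : k[X]) : Prop :=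
  ∃ (k' : Type) (_ : Field k') (_ : Algebra k k'), FiniteDimensional k k' ∧
    Module.finrank k k' = D ∧ ∀ n : ℕ, 0 < n →
      ∃ x y : k', algebraMap k k' a * y ^ n = (f.map (algebraMap k k')).eval x

lemma nothing_of_data {L : Type} [Field L] [CharZero L] {I : Type} [Fintype I] (D : ℕ) (a : L)
    (f : I → L[X]) (e : I → ℕ) (h : Pool.Agent.V11235.SH.Data D L a f) (n : ℕ) (hn : D ∣ n) :
    NothingAt D n a f e := by
  obtain ⟨ℓ, hℓ0, hℓD, A, _, _, _, _, _, h, hlc, hmap, hs, hf, ϖ, t, m, hϖ, ht, hm, ha⟩ := h
  have hf' : f = fun i => (h i).map (algebraMap A L) := funext fun i => (hmap i).symm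
  subst hf'
  have hρ : Function.Surjective (IsLocalRing.residue A) := IsLocalRing.residue_surjective
  have h1 : ∏ i, (h i).map (algebraMap A L) ^ e i = (∏ i, h i ^ e i).map (algebraMap A L) := by
    rw [Polynomial.map_prod]
    exact Finset.prod_congr rfl fun i _ => (Polynomial.map_pow _ _).symm
  have h2 : ∏ i, (h i).map (algebraMap A L) = (∏ i, h i).map (algebraMap A L) :=
    (Polynomial.map_prod _ _ _).symm
  have hℓn : ℓ ∣ n := hℓD.trans hn
  unfold NothingAt
  rw [h1, h2]
  refine ⟨⟨?_, ?_⟩, ?_, ?_⟩
  · rintro ⟨x, y, hxy⟩
    exact Pool.Agent.TH377.LocG.res_P _ hρ ℓ hℓ0 h e hlc hs hf ϖ hϖ a t ht m hm ha n hℓn x y hxy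
  · rintro ⟨r, hr⟩
    exact Pool.Agent.TH377.LocG.res_inf _ hρ ℓ hℓ0 h e hlc hs hf ϖ hϖ a t ht m hm ha n hℓn r hr
  · intro F Ω _ _ _ _ _ _ _ x y M hxy hM
    have hcl : IsAlgClosed Ω := IsAlgClosure.isAlgClosed F
    have halg : Algebra.IsAlgebraic F Ω := IsAlgClosure.isAlgebraic
    have hroot : ∀ θ θ' : Ω, aeval θ ((∏ i, h i).map (algebraMap A L)) = 0 →
        aeval θ' ((∏ i, h i).map (algebraMap A L)) = 0 →
        ∃ z ∈ M, z ^ ℓ = (algebraMap F Ω x - θ) / (algebraMap F Ω x - θ') := by
      intro θ θ' hθ hθ'
      obtain ⟨z, hz, hzD⟩ := hM.2 θ θ' hθ hθ'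
      obtain ⟨c, hc⟩ := hℓD
      refine ⟨z ^ c, pow_mem hz c, ?_⟩
      rw [← hzD, ← pow_mul, hc, mul_comm c ℓ]
    have h := Pool.Agent.TH377.LocG.res_M (F := F) (Ω := Ω) _ hρ ℓ hℓ0 h e hlc hs hf ϖ hϖ a t ht m hm
      ha n hℓn M hM.1 x y hxy hroot
    exact ⟨fun s => h.false ⟨s.toHom, s.cont, fun σ c z hz => s.compat σ c z hz⟩⟩
  · intro he F Ω _ _ _ _ _ _ _ x y U hxy hU
    have hcl : IsAlgClosed Ω := IsAlgClosure.isAlgClosed F
    have halg : Algebra.IsAlgebraic F Ω := IsAlgClosure.isAlgebraic
    have h := Pool.Agent.TH377.LocG.res_U (F := F) (Ω := Ω) _ hρ ℓ hℓ0 h e hlc hs hf ϖ hϖ a t ht m hm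
      ha n hℓn (fun i => Nat.Coprime.coprime_dvd_left hℓD (he i)) U hU x y hxy
    exact ⟨fun s => h.false ⟨s.toHom, s.cont, s.compat⟩⟩

/-- the data of the local theorem over all finite extensions -/
lemma data_of {A : Type} [CommRing A] [IsDomain A] [IsDiscreteValuationRing A] {k : Type} [Field k]
    [CharZero k] [Algebra A k] [IsFractionRing A k] {I : Type} [Fintype I] (D : ℕ) (hD : 0 < D)
    (f : I → A[X]) (h : GoodReduction D f) (a : k) (m : ℤ) (ha : HasValuation A a m)
    (K' : Type) [Field K'] [Algebra k K'] [FiniteDimensional k K']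
    (hK' : ¬ (D : ℤ) ∣ m * Module.finrank k K') :
    Pool.Agent.V11235.SH.Data D K' (algebraMap k K' a)
      (fun i => ((f i).map (algebraMap A k)).map (algebraMap k K')) := by
  obtain ⟨ϖ, t, hϖ, ht, hat⟩ := ha
  let _ : Algebra A K' := ((algebraMap k K').comp (algebraMap A k)).toAlgebra
  have hst : IsScalarTower A k K' := IsScalarTower.of_algebraMap_eq fun _ => rfl
  obtain ⟨ℓ, hℓ0, hℓD, B, iA1, iA2, iA3, iA4, iA5, j, hj, hjs, hjf, ϖ', t', m', hϖ', ht', hm', hd'⟩ :=
    Pool.Agent.V11235.SH.dvr_all (k := k) (L := K') (∏ s, f s) h.separable D hD.ne' h.factors ϖ t hϖ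
      ht m hK'
  have hjinj : Function.Injective j := by
    have h2 : Function.Injective ((algebraMap B K').comp j) := by
      rw [hj]
      exact (algebraMap k K').injective.comp (IsFractionRing.injective A k)
    exact Function.Injective.of_comp h2
  refine ⟨ℓ, hℓ0, hℓD, B, iA1, iA2, iA3, iA4, iA5, fun s => (f s).map j, ?_, ?_, ?_, ?_,
    ϖ', t', m', hϖ', ht', hm', ?_⟩
  · intro s
    rw [leadingCoeff_map_of_injective hjinj]
    exact (h.unit s).map j
  · intro s
    change ((f s).map j).map (algebraMap B K') = ((f s).map (algebraMap A k)).map (algebraMap k K')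
    rw [Polynomial.map_map, hj, Polynomial.map_map]
    rfl
  · have h1 : ∏ s, (f s).map j = (∏ s, f s).map j := (Polynomial.map_prod _ _ _).symm
    rw [h1]
    exact hjs
  · have h1 : ∏ s, (f s).map j = (∏ s, f s).map j := (Polynomial.map_prod _ _ _).symm
    rw [h1]
    exact hjf
  · rw [← hd', hat, map_mul, map_zpow₀]
    rfl

lemma only {A : Type} [CommRing A] [IsDomain A] [IsDiscreteValuationRing A] {k : Type} [Field k]
    [CharZero k] [Algebra A k] [IsFractionRing A k] {I : Type} [Fintype I] (D : ℕ) (hD : 0 < D)
    (f : I → A[X]) (e : I → ℕ) (h : GoodReduction D f) (a : k) (m : ℤ) (ha : HasValuation A a m) :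
    OnlyDegreesDivisible D m a (fun i => (f i).map (algebraMap A k)) e := by
  intro K' _ _ _ hK' n hn
  have hcz : CharZero K' := charZero_of_injective_algebraMap (algebraMap k K').injective
  exact nothing_of_data D _ _ e (data_of D hD f h a m ha K' hK') n hn

/-- Let `k` be a field of characteristic zero, `A` a discrete valuation ring of `k`, for instance the
ring of integers of a finite extension `k` of `ℚ_p`.  (1) Let `f_i ∈ A[x]` be finitely many polynomials
with unit leading coefficients such that the reduction of `∏ f_i` is separable and the degrees of all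
its irreducible factors are divisible by `gcd(2, D) D`, `e_i ≥ 0`, and let `a ∈ k` have valuation `m`.
Then for all finite extensions `k'` of `k` such that `D` does not divide `m [k' : k]` and all `n`
divisible by `D`: the curve `a yⁿ = ∏ f_i(x)^(e_i)` has no point over `k'`; there are no sections over
`G_k'` of the absolute Galois group of its function field `F` over `k'`, and of the quotients of it that
belong to the extensions of `F` which contain the algebraic closure of `k'` and the roots of order `D`
of the ratios of the functions `x - ρ`, where `ρ` is a root of `∏ f_i`; and if the `e_i` are prime to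
`D` there are no sections of the fundamental groups of the open subcurves and of the smooth curves over
`k'` that dominate them.  (2) Let `f ∈ A[x]` have a unit as leading coefficient, odd degree `D`, and an
irreducible separable reduction, and let `a ∈ k` have a valuation that is prime to `D`.  Then there is
an extension `k'` of `k` of degree `D` over which all the curves `a yⁿ = f(x)`, `n ≥ 1`, have points. -/
theorem result (A k : Type) [CommRing A] [IsDomain A] [IsDiscreteValuationRing A] [Field k]
    [CharZero k] [Algebra A k] [IsFractionRing A k] :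
    (∀ (I : Type) [Fintype I] (D : ℕ), 0 < D → ∀ (f : I → A[X]) (e : I → ℕ), GoodReduction D f →
      ∀ (a : k) (m : ℤ), HasValuation A a m →
        OnlyDegreesDivisible D m a (fun i => (f i).map (algebraMap A k)) e) ∧
    (∀ (D : ℕ) (f : A[X]), Odd D → f.natDegree = D → IsUnit f.leadingCoeff →
      Irreducible (f.map (IsLocalRing.residue A)) → (f.map (IsLocalRing.residue A)).Separable →
      ∀ (a : k) (m : ℤ), HasValuation A a m → IsCoprime m (D : ℤ) →
        PointInDegree D a (f.map (algebraMap A k))) := by
  classical
  refine ⟨fun I _ D hD f e h a m ha => only D hD f e h a m ha, ?_⟩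
  intro D f hodd hdeg hlc hirr hsep a m ha hcop
  have hD : 0 < D := hodd.pos
  have hinj : Function.Injective (algebraMap A k) := IsFractionRing.injective A k
  have hdk : (f.map (algebraMap A k)).natDegree = D := by
    rw [natDegree_map_eq_of_injective hinj, hdeg]
  have hdr : (f.map (IsLocalRing.residue A)).natDegree = D := by
    rw [natDegree_map_of_leadingCoeff_ne_zero _ (hlc.map _).ne_zero, hdeg]
  -- an irreducible factor
  obtain ⟨q, hq, hqf⟩ := Polynomial.exists_irreducible_of_natDegree_ne_zero
    (show (f.map (algebraMap A k)).natDegree ≠ 0 by omega)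
  have hfact : Fact (Irreducible q) := ⟨hq⟩
  have hf0 : f.map (algebraMap A k) ≠ 0 := by
    intro h0
    rw [h0, natDegree_zero] at hdk
    omega
  have hfin : FiniteDimensional k (AdjoinRoot q) := (AdjoinRoot.powerBasis hq.ne_zero).finite
  have hrank : Module.finrank k (AdjoinRoot q) = q.natDegree := by
    rw [(AdjoinRoot.powerBasis hq.ne_zero).finrank, AdjoinRoot.powerBasis_dim]
  have hroot : ((f.map (algebraMap A k)).map (algebraMap k (AdjoinRoot q))).eval
      (AdjoinRoot.root q) = 0 := by
    obtain ⟨r, hr⟩ := hqf
    rw [hr, Polynomial.map_mul, eval_mul]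
    have h1 : (q.map (algebraMap k (AdjoinRoot q))).eval (AdjoinRoot.root q) = 0 := by
      rw [AdjoinRoot.algebraMap_eq, eval_map]
      exact AdjoinRoot.eval₂_root q
    rw [h1, zero_mul]
  have hpt : ∀ n : ℕ, 0 < n → ∃ x y : AdjoinRoot q, algebraMap k (AdjoinRoot q) a * y ^ n =
      ((f.map (algebraMap A k)).map (algebraMap k (AdjoinRoot q))).eval x := by
    intro n hn
    refine ⟨AdjoinRoot.root q, 0, ?_⟩
    rw [hroot, zero_pow hn.ne', mul_zero]
  have hgood : GoodReduction D (fun _ : Unit => f) := by
    refine ⟨fun _ => hlc, ?_, ?_⟩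
    · rw [Finset.univ_unique, Finset.prod_singleton]
      exact hsep
    · intro r hr hrf
      rw [Finset.univ_unique, Finset.prod_singleton] at hrf
      have h1 : r.natDegree = D := by
        rw [← hdr]
        exact natDegree_eq_of_degree_eq (degree_eq_degree_of_associated
          (hr.associated_of_dvd hirr hrf))
      rw [h1, Nat.Coprime.gcd_eq_one (Nat.coprime_two_left.2 hodd), one_mul]
  have hdvd : D ∣ Module.finrank k (AdjoinRoot q) := by
    by_contra hn
    have h1 : ¬ (D : ℤ) ∣ m * Module.finrank k (AdjoinRoot q) := by
      intro h2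
      apply hn
      have h3 := hcop.symm.dvd_of_dvd_mul_left h2
      exact_mod_cast h3
    obtain ⟨⟨h2, -⟩, -⟩ := only D hD (fun _ : Unit => f) (fun _ => 1) hgood a m ha (AdjoinRoot q)
      h1 D dvd_rfl
    apply h2
    obtain ⟨x, y, hxy⟩ := hpt D hD
    refine ⟨x, y, ?_⟩
    rw [Finset.univ_unique, Finset.prod_singleton, pow_one]
    exact hxy
  refine ⟨AdjoinRoot q, inferInstance, inferInstance, hfin, ?_, hpt⟩
  refine Nat.le_antisymm ?_ (Nat.le_of_dvd Module.finrank_pos hdvd)
  rw [hrank, ← hdk]
  exact natDegree_le_of_dvd hqf hf0

end Pool.Agent.Results.MP_c385f6_ag.SectionDegrees
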